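import Pool.Agent.Helper20.Mono.Goals

/-! Packet E3 of the monodromy conjecture (arithmetic of classes). -/

namespace Mono

open Finset

variable {n : ℕ}

theorem ell_eq_zero_of_not_face (Φ : Fan n) (G : Finset (Fin n → ℤ)) (h : ¬ Φ.IsFace G) :
    Φ.ell G = 0 := by
  unfold Fan.ell
  refine Finset.sum_eq_zero fun T _ => ?_
  have : ((Φ.mxT T).filter (fun τ => G ⊆ τ)) = ∅ := by
    rw [Finset.filter_eq_empty_iff]
    intro τ hτ hG
    apply h
    have hτ' : τ ∈ Φ.faces := (Finset.mem_filter.1 hτ).1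
    exact ((Φ.mem_faces).1 hτ').subset Φ hG
  rw [this]
  simp

theorem ell_nonneg (hA : AlgMain) (Φ : Fan n) (hc : Φ.Coherent) (G : Finset (Fin n → ℤ)) :
    0 ≤ Φ.ell G := by
  by_cases h : Φ.IsFace G
  · exact (hA n Φ hc G h).1
  · rw [ell_eq_zero_of_not_face Φ G h]

theorem multNonneg (hA : AlgMain) (hM : MultFormula) : MultNonneg := by
  intro n Φ hc Z S hN hS m hm0 hm1
  have hden : ((m : ℚ)⁻¹).den = m := Rat.inv_natCast_den_of_pos (Nat.pos_of_ne_zero hm0)
  have h := hM n Φ Z S hN hS ((m : ℚ)⁻¹) (by rw [hden]; exact hm1)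
  rw [hden] at h
  rw [h]
  exact Finset.sum_nonneg fun G _ => mul_nonneg (Int.natCast_nonneg _) (ell_nonneg hA Φ hc _)

/-- The coordinates of a class are rational. -/
theorem class_rational (Φ : Fan n) (σ : Finset (Fin n → ℤ)) (c : (Fin n → ℤ) → ℝ)
    (h : Φ.IsClass σ c) : ∃ d : (Fin n → ℤ) → ℚ, ∀ t ∈ σ, c t = (d t : ℝ) := by
  classical
  obtain ⟨⟨F, hF, hσF⟩, hne, hsum⟩ := h
  have hI := Φ.mx_indep F hF
  have hcard := Φ.mx_card F hF
  let tQ : F → (Fin n → ℚ) := fun u i => ((u : Fin n → ℤ) i : ℚ)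
  have hli : LinearIndependent ℚ tQ := by
    rw [Fintype.linearIndependent_iff]
    intro g hg
    have h1 := (Fintype.linearIndependent_iff.1 hI) (fun v : F => ((g v : ℚ) : ℝ)) (by
      funext i
      have h2 := congrFun hg i
      simp only [tQ, Finset.sum_apply, Pi.smul_apply, smul_eq_mul, Pi.zero_apply, toR_apply] at h2 ⊢
      have h3 : ((∑ x : F, g x * ((x : Fin n → ℤ) i : ℚ) : ℚ) : ℝ) = 0 := by
        rw [h2]; simp
      push_cast at h3
      exact h3)
    intro i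
    exact_mod_cast h1 i
  have hb : Submodule.span ℚ (Set.range tQ) = ⊤ := by
    refine LinearIndependent.span_eq_top_of_card_eq_finrank' hli ?_
    simp [hcard]
  have hx : (fun _ => (1 : ℚ)) ∈ Submodule.span ℚ (Set.range tQ) := by
    rw [hb]; trivial
  rw [Submodule.mem_span_range_iff_exists_fun] at hx
  obtain ⟨d, hd⟩ := hx
  refine ⟨fun v => if hv : v ∈ F then d ⟨v, hv⟩ else 0, ?_⟩
  -- two expressions of the vector `1`
  have e1 : ∑ u ∈ F, (if u ∈ σ then c u else 0) • toR u = (fun _ => (1 : ℝ)) := by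
    rw [hsum]
    rw [← Finset.sum_subset hσF]
    · exact Finset.sum_congr rfl fun u hu => by simp [hu]
    · intro u _ hu
      simp [hu]
  have e2 : ∑ u ∈ F, (((if hv : u ∈ F then d ⟨u, hv⟩ else 0 : ℚ)) : ℝ) • toR u
      = (fun _ => (1 : ℝ)) := by
    rw [← Finset.sum_coe_sort F]
    funext i
    have h2 := congrFun hd i
    simp only [tQ, Finset.sum_apply, Pi.smul_apply, smul_eq_mul, toR_apply, Finset.coe_mem,
      dite_true] at h2 ⊢
    have h3 : ((∑ x : F, d x * ((x : Fin n → ℤ) i : ℚ) : ℚ) : ℝ) = 1 := by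
      rw [h2]; simp
    push_cast at h3
    rw [← h3]
  intro t ht
  have h4 := hI.coeff_eq (e1.trans e2.symm) t (hσF ht)
  simpa [ht] using h4

theorem lstar_finite (Z : Finset (Fin n → ℤ)) (a : ℝ) (G : Finset (Fin n → ℤ)) :
    Finite {b : Fin n → ℤ // ∃ c : (Fin n → ℤ) → ℝ, (∀ u ∈ G, 0 < c u ∧ c u < 1) ∧
    toR b = ∑ u ∈ G, c u • toR u ∧ ∃ z : ℤ, ∑ u ∈ G \ Z, c u - a = z} := by
  classical
  have hfin : (Set.Icc (fun i => - ∑ u ∈ G, |u i|) (fun i => ∑ u ∈ G, |u i|) :
      Set (Fin n → ℤ)).Finite := Set.finite_Icc _ _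
  refine Set.Finite.subset hfin ?_
  rintro b ⟨c, hc, hb, -⟩
  have key : ∀ i, |(b i : ℝ)| ≤ ((∑ u ∈ G, |u i| : ℤ) : ℝ) := by
    intro i
    have h1 := congrFun hb i
    simp only [toR_apply, Finset.sum_apply, Pi.smul_apply, smul_eq_mul] at h1
    rw [h1]
    push_cast
    refine (Finset.abs_sum_le_sum_abs _ _).trans (Finset.sum_le_sum fun u hu => ?_)
    rw [abs_mul]
    have h2 : |c u| ≤ 1 := by
      rw [abs_le]
      constructor
      · linarith [(hc u hu).1]
      · exact (hc u hu).2.le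
    calc |c u| * |(u i : ℝ)| ≤ 1 * |(u i : ℝ)| :=
          mul_le_mul_of_nonneg_right h2 (abs_nonneg _)
      _ = |(u i : ℝ)| := one_mul _
  constructor
  · intro i
    have h1 := (abs_le.1 (key i)).1
    have : ((- ∑ u ∈ G, |u i| : ℤ) : ℝ) ≤ (b i : ℝ) := by
      push_cast at h1 ⊢
      linarith
    exact_mod_cast this
  · intro i
    have h1 := (abs_le.1 (key i)).2
    exact_mod_cast h1

theorem classMain (hA : AlgMain) (hM : MultFormula) (hC : ClassKill) : ClassMain := by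
  classical
  intro n Φ hcoh Z σ hN c hcl
  obtain ⟨d, hd⟩ := class_rational Φ σ c hcl
  refine ⟨∑ t ∈ σ \ Z, d t, ?_, ?_⟩
  · push_cast
    exact Finset.sum_congr rfl fun t ht => hd t (Finset.mem_sdiff.1 ht).1
  set q : ℚ := ∑ t ∈ σ \ Z, d t with hq
  have hqc : ∑ t ∈ σ \ Z, c t = (q : ℝ) := by
    rw [hq]; push_cast
    exact Finset.sum_congr rfl fun t ht => hd t (Finset.mem_sdiff.1 ht).1
  intro hq1 hmult
  have hMF := hM n Φ Z (σ ∩ Z) hN Finset.inter_subset_right q hq1
  rw [hmult] at hMF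
  have hterms := (Finset.sum_eq_zero_iff_of_nonneg (fun G _ =>
    mul_nonneg (Int.natCast_nonneg _) (ell_nonneg hA Φ hcoh (G ∪ (σ ∩ Z))))).1 hMF.symm
  set G : Finset (Fin n → ℤ) := σ.filter (fun t => ∀ z : ℤ, c t ≠ z) with hG
  have hGσ : G ⊆ σ := Finset.filter_subset _ _
  have hGface : Φ.IsFace G := hcl.1.subset Φ hGσ
  have hterm := hterms G ((Φ.mem_faces).2 hGface)
  have hcore : G ∪ (σ ∩ Z) = ncore Z σ c := by
    ext t
    simp only [hG, ncore, Finset.mem_union, Finset.mem_filter, Finset.mem_inter]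
    tauto
  have hcoreface : Φ.IsFace (ncore Z σ c) := hcl.1.subset Φ (by
    unfold ncore; exact Finset.filter_subset _ _)
  have hl : (lstar Z (q : ℝ) G : ℤ) ≠ 0 := by
    have hfin := lstar_finite Z (q : ℝ) G
    have hne : Nonempty {b : Fin n → ℤ // ∃ c : (Fin n → ℤ) → ℝ, (∀ u ∈ G, 0 < c u ∧ c u < 1) ∧
        toR b = ∑ u ∈ G, c u • toR u ∧ ∃ z : ℤ, ∑ u ∈ G \ Z, c u - (q : ℝ) = z} := by
      have hfr0 : ∀ t ∈ σ, t ∉ G → Int.fract (c t) = 0 := by
        intro t ht htG
        have : ¬ ∀ z : ℤ, c t ≠ z := fun h => htG (by rw [hG]; exact Finset.mem_filter.2 ⟨ht, h⟩)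
        push Not at this
        obtain ⟨z, hz⟩ := this
        rw [hz]; exact Int.fract_intCast z
      refine ⟨⟨fun i => 1 - ∑ t ∈ σ, ⌊c t⌋ * t i, fun u => Int.fract (c u), ?_, ?_, ?_⟩⟩
      · intro u hu
        have hu2 : ∀ z : ℤ, c u ≠ z := (Finset.mem_filter.1 hu).2
        refine ⟨?_, Int.fract_lt_one _⟩
        rcases (Int.fract_nonneg (c u)).lt_or_eq with h | h
        · exact h
        · exfalso
          have h5 : c u = ⌊c u⌋ := by
            have := Int.floor_add_fract (c u)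
            linarith
          exact hu2 _ h5
      · rw [Finset.sum_subset hGσ (f := fun u => Int.fract (c u) • toR u) (by
          intro u hu huG
          simp [hfr0 u hu huG])]
        funext i
        have h1 := congrFun hcl.2.2 i
        simp only [toR_apply, Finset.sum_apply, Pi.smul_apply, smul_eq_mul] at h1 ⊢
        push_cast
        rw [h1, ← Finset.sum_sub_distrib]
        refine Finset.sum_congr rfl fun t _ => ?_
        have := Int.floor_add_fract (c t)
        have h6 : Int.fract (c t) = c t - ⌊c t⌋ := rfl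
        rw [h6]; ring
      · refine ⟨- ∑ t ∈ σ \ Z, ⌊c t⌋, ?_⟩
        have h7 : ∑ u ∈ G \ Z, Int.fract (c u) = ∑ u ∈ σ \ Z, Int.fract (c u) := by
          refine Finset.sum_subset (Finset.sdiff_subset_sdiff hGσ (Finset.Subset.refl _)) ?_
          intro u hu huG
          refine hfr0 u (Finset.mem_sdiff.1 hu).1 ?_
          intro h8
          exact huG (Finset.mem_sdiff.2 ⟨h8, (Finset.mem_sdiff.1 hu).2⟩)
        rw [h7, ← hqc, ← Finset.sum_sub_distrib]
        push_cast
        rw [← Finset.sum_neg_distrib]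
        refine Finset.sum_congr rfl fun t _ => ?_
        have h6 : Int.fract (c t) = c t - ⌊c t⌋ := rfl
        rw [h6]; ring
    have : Nat.card {b : Fin n → ℤ // ∃ c : (Fin n → ℤ) → ℝ, (∀ u ∈ G, 0 < c u ∧ c u < 1) ∧
        toR b = ∑ u ∈ G, c u • toR u ∧ ∃ z : ℤ, ∑ u ∈ G \ Z, c u - (q : ℝ) = z} ≠ 0 :=
      Nat.card_ne_zero.2 ⟨hne, hfin⟩
    unfold lstar
    exact_mod_cast this
  have hell : Φ.ell (ncore Z σ c) = 0 := by
    rw [← hcore]
    rcases mul_eq_zero.1 hterm with h | h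
    · exact absurd h hl
    · exact h
  exact hC n Φ Z σ c hcl ((hA n Φ hcoh _ hcoreface).2 hell)

end Mono
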